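import Mathlib

set_option autoImplicit false

namespace Pool.Agent.Lib.MP_a1720d_lc

/-- `Pal w` is the set of palindromic factors (contiguous subwords) of the finite word `w`,
the empty word included. -/
def Pal {α : Type} (w : List α) : Set (List α) := {u | u <:+: w ∧ u.reverse = u}

/-- The defect `D(w) = |w| + 1 - |Pal(w)|` of a finite word. -/
noncomputable def defect {α : Type} (w : List α) : ℕ := w.length + 1 - (Pal w).ncard

/-- An infinite word: its index set is the positive integers (right-infinite), the negative
integers (left-infinite) or all integers (two-way infinite); the values of `letter` outside the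
index set play no role. -/
structure InfWord (α : Type) where
  dom : Set ℤ
  dom_eq : dom = Set.Ioi 0 ∨ dom = Set.Iio 0 ∨ dom = Set.univ
  letter : ℤ → α

/-- The finite word `u` is a factor of the infinite word `z`. -/
def IsFactor {α : Type} (u : List α) (z : InfWord α) : Prop :=
  ∃ i : ℤ, ∀ (j : ℕ) (h : j < u.length), i + j ∈ z.dom ∧ u[j] = z.letter (i + j)

/-- The defect of an infinite word: the supremum of the defects of its finite factors. -/
noncomputable def defectInf {α : Type} (z : InfWord α) : ℕ∞ :=
  ⨆ (u : List α) (_ : IsFactor u z), (defect u : ℕ∞)

/-- The infinite defect of a finite word `w`: the least defect of an infinite word which has `w`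
as a factor and all of whose letters occur in `w`. -/
noncomputable def infiniteDefect {α : Type} (w : List α) : ℕ∞ :=
  ⨅ (z : InfWord α) (_ : IsFactor w z ∧ ∀ i ∈ z.dom, z.letter i ∈ w), defectInf z

end Pool.Agent.Lib.MP_a1720d_lc
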