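import Pool.Agent.Lib.MP_a1720d_lc.Prim

set_option autoImplicit false

namespace Pool.Agent.Lib.MP_a1720d_lc

variable {α : Type}

theorem exists_chain {W : List α} (hW : Good W) :
    ∃ s : ℕ → List α, s 0 = W ∧ (∀ n, s n <+: s (n + 1)) ∧ (∀ n, n ≤ (s n).length) ∧
      (∀ n, defect (s n) = defect W) ∧ ∀ n, ∀ a ∈ s n, a ∈ W := by
  choose! f hf using fun V : List α => (good_extend : Good V → _)
  let s : ℕ → List α := fun n => Nat.rec W (fun _ V => V ++ f V) n
  have hs : ∀ n, s (n + 1) = s n ++ f (s n) := fun _ => rfl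
  have key : ∀ n, Good (s n) ∧ n ≤ (s n).length ∧ defect (s n) = defect W ∧
      ∀ a ∈ s n, a ∈ W := by
    intro n
    induction n with
    | zero => exact ⟨hW, Nat.zero_le _, rfl, fun a ha => ha⟩
    | succ n ih =>
      obtain ⟨h1, h2, h3, h4⟩ := ih
      obtain ⟨g1, g2, g3, g4⟩ := hf (s n) h1
      rw [hs]
      refine ⟨g4, ?_, g3.trans h3, ?_⟩
      · have := List.length_pos_iff.mpr g1
        rw [List.length_append]; omega
      · intro a ha
        rcases List.mem_append.mp ha with ha | ha
        · exact h4 a ha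
        · exact h4 a (g2 a ha)
  exact ⟨s, rfl, fun n => by rw [hs]; exact List.prefix_append _ _, fun n => (key n).2.1,
    fun n => (key n).2.2.1, fun n => (key n).2.2.2⟩

theorem exists_limit {W : List α} (hW : Good W) :
    ∃ z : ℕ → α, (∀ n, z n ∈ W) ∧ (∀ i (h : i < W.length), W[i] = z i) ∧
      ∀ (u : List α) (i : ℕ), (∀ j (h : j < u.length), u[j] = z (i + j)) →
        defect u ≤ defect W := by
  obtain ⟨s, h0, h1, h2, h3, h4⟩ := exists_chain hW
  have hmono : ∀ n m, n ≤ m → s n <+: s m := by
    intro n m hnm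
    induction m, hnm using Nat.le_induction with
    | base => exact List.prefix_refl _
    | succ m _ ih => exact ih.trans (h1 m)
  let z : ℕ → α := fun i => (s (i + 1))[i]'(h2 (i + 1))
  have hz : ∀ n i (h : i < (s n).length), (s n)[i] = z i := by
    intro n i h
    rcases le_total n (i + 1) with hn | hn
    · exact (hmono _ _ hn).getElem h
    · exact ((hmono _ _ hn).getElem (h2 (i + 1))).symm
  refine ⟨z, fun n => h4 _ _ (List.getElem_mem _), ?_, ?_⟩
  · intro i h
    subst h0
    exact hz 0 i h
  · intro u i hu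
    rw [← h3 (i + u.length)]
    refine defect_mono ?_
    have hl := h2 (i + u.length)
    have : u = List.take u.length (List.drop i (s (i + u.length))) := by
      refine List.ext_getElem (by simp; omega) ?_
      intro j hj hj'
      rw [hu j hj, List.getElem_take, List.getElem_drop, hz]
    rw [this]
    simp only [List.length_take, List.length_drop]
    rw [show min u.length ((s (i + u.length)).length - i) = u.length by omega]
    exact (List.take_prefix _ _).isInfix.trans (List.drop_suffix _ _).isInfix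

theorem infiniteDefect_le_rightVal {w : List α} (hw : w ≠ []) :
    infiniteDefect w ≤ rightVal w := by
  obtain ⟨u, h1, h2, h3⟩ := exists_good hw
  obtain ⟨z, g1, g2, g3⟩ := exists_limit h3
  let Z : InfWord α := ⟨Set.Ioi 0, Or.inl rfl, fun t => z (t - 1).toNat⟩
  have hZ : IsFactor w Z ∧ ∀ i ∈ Z.dom, Z.letter i ∈ w := by
    constructor
    · refine ⟨1, fun j h => ⟨?_, ?_⟩⟩
      · show (0 : ℤ) < 1 + j
        omega
      · show w[j] = z (1 + (j : ℤ) - 1).toNat
        rw [show (1 + (j : ℤ) - 1).toNat = j by omega, ← g2 j (by simp; omega),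
          List.getElem_append_left h]
    · intro i _
      rcases List.mem_append.mp (g1 (i - 1).toNat) with h | h
      · exact h
      · exact h1 _ h
  refine (iInf₂_le Z hZ).trans ?_
  refine iSup₂_le fun v hv => ?_
  obtain ⟨i, hi⟩ := hv
  have : defect v ≤ defect (w ++ u) := by
    refine g3 v (i - 1).toNat fun j h => ?_
    have h0 : (0 : ℤ) < i + (0 : ℕ) := (hi 0 (by omega)).1
    rw [(hi j h).2]
    show z (i + j - 1).toNat = _
    congr 1
    omega
  exact_mod_cast this.trans h2

/-- `z'` is the mirror image of `z`. -/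
def Mirror (z z' : InfWord α) : Prop :=
  (∀ t, t ∈ z'.dom ↔ -t ∈ z.dom) ∧ ∀ t, z'.letter t = z.letter (-t)

theorem Mirror.symm {z z' : InfWord α} (h : Mirror z z') : Mirror z' z :=
  ⟨fun t => by rw [h.1, neg_neg], fun t => by rw [h.2, neg_neg]⟩

theorem exists_mirror (z : InfWord α) : ∃ z', Mirror z z' := by
  refine ⟨⟨{t | -t ∈ z.dom}, ?_, fun t => z.letter (-t)⟩, fun _ => Iff.rfl, fun _ => rfl⟩
  rcases z.dom_eq with h | h | h <;> rw [h]
  · right; left; ext t; simp
  · left; ext t; simp
  · right; right; ext t; simp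

theorem Mirror.isFactor {z z' : InfWord α} (h : Mirror z z') {u : List α} (hu : IsFactor u z) :
    IsFactor u.reverse z' := by
  obtain ⟨i, hi⟩ := hu
  refine ⟨-(i + u.length - 1), fun j hj => ?_⟩
  have hj' : j < u.length := by simpa using hj
  have h1 := hi (u.length - 1 - j) (by omega)
  have h2 : -(-(i + u.length - 1) + j) = i + ((u.length - 1 - j : ℕ) : ℤ) := by omega
  rw [h.1, h.2, h2, List.getElem_reverse]
  exact h1

theorem Mirror.defectInf_le {z z' : InfWord α} (h : Mirror z z') : defectInf z ≤ defectInf z' := by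
  refine iSup₂_le fun u hu => ?_
  rw [← defect_reverse]
  exact le_iSup₂ (f := fun (u : List α) (_ : IsFactor u z') => (defect u : ℕ∞)) _ (h.isFactor hu)

theorem Mirror.alph {z z' : InfWord α} (h : Mirror z z') {w : List α}
    (hw : ∀ i ∈ z.dom, z.letter i ∈ w) : ∀ i ∈ z'.dom, z'.letter i ∈ w.reverse := by
  intro i hi
  rw [h.2, List.mem_reverse]
  exact hw _ ((h.1 i).mp hi)

theorem infiniteDefect_reverse_le (w : List α) : infiniteDefect w.reverse ≤ infiniteDefect w := by
  refine le_iInf₂ fun z hz => ?_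
  obtain ⟨z', h⟩ := exists_mirror z
  exact (iInf₂_le z' ⟨h.isFactor hz.1, h.alph hz.2⟩).trans h.symm.defectInf_le

theorem rightVal_le_defectInf {w : List α} (hw : w ≠ []) {z : InfWord α} (h1 : IsFactor w z)
    (h2 : ∀ i ∈ z.dom, z.letter i ∈ w) (hup : ∀ i ∈ z.dom, ∀ j : ℕ, i + j ∈ z.dom) :
    (rightVal w : ℕ∞) ≤ defectInf z := by
  obtain ⟨i, hi⟩ := h1
  have hpos := List.length_pos_iff.mpr hw
  have hi0 : i ∈ z.dom := by simpa using (hi 0 hpos).1
  let u : List α := List.ofFn fun j : Fin (depth w) => z.letter (i + (w.length + j : ℕ))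
  have hu : IsFactor (w ++ u) z := by
    refine ⟨i, fun j hj => ⟨hup i hi0 j, ?_⟩⟩
    by_cases hjw : j < w.length
    · rw [List.getElem_append_left hjw]; exact (hi j hjw).2
    · rw [List.getElem_append_right (by omega)]
      simp only [u, List.getElem_ofFn]
      congr 2
      push_cast
      omega
  have h3 : rightVal w ≤ defect (w ++ u) := by
    refine rightVal_le (by simp [u]) fun a ha => ?_
    obtain ⟨j, rfl⟩ := (List.mem_ofFn' _ _).mp ha
    exact h2 _ (hup i hi0 _)
  refine le_trans (Nat.cast_le.mpr h3) ?_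
  exact le_iSup₂ (f := fun (u : List α) (_ : IsFactor u z) => (defect u : ℕ∞)) _ hu

theorem val_eq {w : List α} (hw : w ≠ []) :
    ((min (rightVal w) (rightVal w.reverse) : ℕ) : ℕ∞) = infiniteDefect w := by
  have hw' : w.reverse ≠ [] := by simpa using hw
  refine le_antisymm ?_ ?_
  · refine le_iInf₂ fun z hz => ?_
    rcases z.dom_eq with h | h | h
    · refine le_trans (Nat.cast_le.mpr (min_le_left _ _)) (rightVal_le_defectInf hw hz.1 hz.2 ?_)
      intro i hi j
      rw [h] at hi ⊢
      simp only [Set.mem_Ioi] at hi ⊢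
      omega
    · obtain ⟨z', hm⟩ := exists_mirror z
      refine le_trans (Nat.cast_le.mpr (min_le_right _ _))
        ((rightVal_le_defectInf hw' (hm.isFactor hz.1) (hm.alph hz.2) ?_).trans
          hm.symm.defectInf_le)
      intro i hi j
      rw [hm.1, h] at hi ⊢
      simp only [Set.mem_Iio] at hi ⊢
      omega
    · refine le_trans (Nat.cast_le.mpr (min_le_left _ _)) (rightVal_le_defectInf hw hz.1 hz.2 ?_)
      intro i _ j
      rw [h]; trivial
  · rcases min_choice (rightVal w) (rightVal w.reverse) with h | h <;> rw [h]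
    · exact infiniteDefect_le_rightVal hw
    · have := infiniteDefect_reverse_le w.reverse
      rw [List.reverse_reverse] at this
      exact this.trans (infiniteDefect_le_rightVal hw')

end Pool.Agent.Lib.MP_a1720d_lc
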