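import Pool.Agent.Lib.MP_a1720d_lc.Words

set_option autoImplicit false

namespace Pool.Agent.Lib.MP_a1720d_lc

variable {α : Type}

/-- All words of length `n` over the letters of `w`. -/
def words (w : List α) (n : ℕ) : List (List α) :=
  Nat.rec [[]] (fun _ l => l.flatMap (fun u => w.map (fun a => a :: u))) n

theorem mem_words (w : List α) (n : ℕ) (u : List α) :
    u ∈ words w n ↔ u.length = n ∧ ∀ a ∈ u, a ∈ w := by
  induction n generalizing u with
  | zero =>
    simp only [words, Nat.rec_zero, List.mem_singleton, List.length_eq_zero_iff]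
    constructor
    · rintro rfl; simp
    · exact fun h => h.1
  | succ n ih =>
    have : words w (n + 1) = (words w n).flatMap (fun u => w.map (fun a => a :: u)) := rfl
    rw [this]
    simp only [List.mem_flatMap, List.mem_map, ih]
    constructor
    · rintro ⟨v, ⟨h1, h2⟩, a, ha, rfl⟩
      refine ⟨by simp [h1], ?_⟩
      intro c hc
      rcases List.mem_cons.mp hc with rfl | hc
      · exact ha
      · exact h2 c hc
    · rintro ⟨h1, h2⟩
      cases u with
      | nil => simp at h1
      | cons a v =>
        exact ⟨v, ⟨by simpa using h1, fun c hc => h2 c (by simp [hc])⟩, a, h2 a (by simp), rfl⟩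

/-- The search depth. -/
def depth (w : List α) : ℕ := 2 ^ w.length * (2 * w.length + 2)

/-- The least defect of an extension of `w` to the right by `depth w` letters. -/
noncomputable def rightVal (w : List α) : ℕ :=
  ((words w (depth w)).map (fun u => defect (w ++ u))).foldr min w.length

theorem foldr_min_le_init (l : List ℕ) (a : ℕ) : l.foldr min a ≤ a := by
  induction l with
  | nil => simp
  | cons b l ih => exact (min_le_right _ _).trans ih

theorem foldr_min_le_of_mem {l : List ℕ} (a : ℕ) {x : ℕ} (hx : x ∈ l) : l.foldr min a ≤ x := by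
  induction l with
  | nil => simp at hx
  | cons b l ih =>
    rcases List.mem_cons.mp hx with rfl | hx
    · exact min_le_left _ _
    · exact (min_le_right _ _).trans (ih hx)

theorem foldr_min_cases (l : List ℕ) (a : ℕ) : l.foldr min a = a ∨ l.foldr min a ∈ l := by
  induction l with
  | nil => simp
  | cons b l ih =>
    rw [List.foldr_cons]
    rcases min_choice b (l.foldr min a) with h | h
    · right; rw [h]; simp
    · rw [h]
      rcases ih with ih | ih
      · exact Or.inl ih
      · exact Or.inr (List.mem_cons_of_mem _ ih)

theorem rightVal_le {w u : List α} (hl : u.length = depth w) (hu : ∀ a ∈ u, a ∈ w) :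
    rightVal w ≤ defect (w ++ u) :=
  foldr_min_le_of_mem _ (List.mem_map.mpr ⟨u, (mem_words _ _ _).mpr ⟨hl, hu⟩, rfl⟩)

theorem rightVal_le_length (w : List α) : rightVal w ≤ w.length := foldr_min_le_init _ _

theorem exists_rightVal {w : List α} (hw : w ≠ []) :
    ∃ u : List α, u.length = depth w ∧ (∀ a ∈ u, a ∈ w) ∧ defect (w ++ u) ≤ rightVal w := by
  rcases foldr_min_cases ((words w (depth w)).map (fun u => defect (w ++ u))) w.length with h | h
  · obtain ⟨a, ha⟩ := List.exists_mem_of_ne_nil w hw
    refine ⟨List.replicate (depth w) a, by simp, ?_, ?_⟩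
    · intro c hc
      rw [List.eq_of_mem_replicate hc]; exact ha
    · rw [rightVal, h]; exact defect_append_replicate _ _ _
  · obtain ⟨u, hu, he⟩ := List.mem_map.mp h
    obtain ⟨h1, h2⟩ := (mem_words _ _ _).mp hu
    exact ⟨u, h1, h2, he.le⟩

theorem exists_good {w : List α} (hw : w ≠ []) :
    ∃ u : List α, (∀ a ∈ u, a ∈ w) ∧ defect (w ++ u) ≤ rightVal w ∧ Good (w ++ u) := by
  obtain ⟨u, h1, h2, h3⟩ := exists_rightVal hw
  have h4 := rightVal_le_length w
  obtain ⟨u', h5, h6⟩ := reach_good u w [] w.length (2 * w.length) List.nil_suffix rfl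
    (by simp) h2 (by omega) (by rw [h1, depth]; omega)
  refine ⟨u', fun a ha => h2 a (h5.subset ha), ?_, h6⟩
  obtain ⟨t, rfl⟩ := h5
  rw [← List.append_assoc] at h3
  exact (defect_le_append _ _).trans h3

section Prim

variable [Primcodable α]

open Primrec

theorem primrec_infix : PrimrecRel (fun p w : List α => p <:+: w) := by
  have h1 : PrimrecRel (fun (j : ℕ) (x : List α × List α) =>
      List.take x.1.length (List.drop j x.2) = x.1) :=
    Primrec.eq.comp
      (list_take.comp (list_length.comp (fst.comp snd)) (list_drop.comp fst (snd.comp snd)))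
      (fst.comp snd)
  have h2 := h1.exists_mem_list.comp
    (list_range.comp (succ.comp (list_length.comp (snd (α := List α) (β := List α))))) Primrec.id
  refine PrimrecPred.of_eq h2 ?_
  rintro ⟨p, w⟩
  simp only [List.mem_range, id]
  constructor
  · rintro ⟨j, _, h⟩
    rw [← h]
    exact (List.take_prefix _ _).isInfix.trans (List.drop_suffix _ _).isInfix
  · rintro ⟨s, t, rfl⟩
    exact ⟨s.length, by simp only [List.length_append]; omega, by simp⟩

theorem primrec_new : PrimrecRel (fun (w : List α) (b : α) => New w b) := by
  have hd : Primrec (fun x : ℕ × (List α × α) => List.drop x.1 (x.2.1 ++ [x.2.2])) :=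
    list_drop.comp fst (list_concat.comp (fst.comp snd) (snd.comp snd))
  have h1 : PrimrecRel (fun (j : ℕ) (x : List α × α) =>
      (List.drop j (x.1 ++ [x.2])).reverse = List.drop j (x.1 ++ [x.2]) ∧
        ¬ List.drop j (x.1 ++ [x.2]) <:+: x.1) :=
    PrimrecPred.and (Primrec.eq.comp (list_reverse.comp hd) hd)
      (PrimrecPred.not (primrec_infix.comp hd (fst.comp snd)))
  have h2 := h1.exists_mem_list.comp
    (list_range.comp (succ.comp (succ.comp (list_length.comp (fst (α := List α) (β := α))))))
    Primrec.id
  refine PrimrecPred.of_eq h2 ?_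
  rintro ⟨w, b⟩
  simp only [List.mem_range, id]
  constructor
  · rintro ⟨j, _, h, h'⟩
    exact ⟨_, List.drop_suffix _ _, h, h'⟩
  · rintro ⟨p, ⟨s, hs⟩, h, h'⟩
    have h3 := congrArg List.length hs
    simp only [List.length_append, List.length_singleton] at h3
    refine ⟨s.length, by omega, ?_⟩
    rw [← hs, List.drop_left]
    exact ⟨h, h'⟩

omit [Primcodable α] in
open Classical in
theorem foldl_defect (w : List α) :
    w.foldl (fun (acc : List α × ℕ) b =>
      (acc.1 ++ [b], if New acc.1 b then acc.2 else acc.2 + 1)) ([], 0) = (w, defect w) := by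
  induction w using List.reverseRecOn with
  | nil => simp [defect_nil]
  | append_singleton w b ih =>
    rw [List.foldl_append, ih]
    by_cases h : New w b
    · simp [h, defect_snoc_of_new h]
    · simp [h, defect_snoc_of_not_new h]

open Classical in
theorem primrec_defect : Primrec (defect : List α → ℕ) := by
  have hh : Primrec₂ (fun (_ : List α) (x : (List α × ℕ) × α) =>
      ((x.1.1 ++ [x.2], if New x.1.1 x.2 then x.1.2 else x.1.2 + 1) : List α × ℕ)) :=
    Primrec.pair (list_concat.comp (fst.comp (fst.comp snd)) (snd.comp snd))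
      (Primrec.ite (primrec_new.comp (fst.comp (fst.comp snd)) (snd.comp snd))
        (snd.comp (fst.comp snd)) (succ.comp (snd.comp (fst.comp snd))))
  have h := snd.comp (list_foldl Primrec.id (const (([], 0) : List α × ℕ)) hh)
  refine h.of_eq fun w => ?_
  simp only [id]
  rw [foldl_defect]

theorem primrec_words : Primrec₂ (words : List α → ℕ → List (List α)) := by
  have hg : Primrec₂ (fun (w : List α) (x : ℕ × List (List α)) =>
      x.2.flatMap (fun u => w.map (fun a => a :: u))) :=
    list_flatMap (snd.comp snd)
      (list_map (fst.comp fst) (list_cons.comp snd (snd.comp fst)).to₂).to₂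
  exact nat_rec (const [[]]) hg

theorem primrec_depth : Primrec (depth : List α → ℕ) :=
  nat_mul.comp ((Primrec₂.unpaired'.1 Nat.Primrec.pow).comp (const 2) list_length)
    (nat_add.comp (nat_mul.comp (const 2) list_length) (const 2))

theorem primrec_rightVal : Primrec (rightVal : List α → ℕ) := by
  have h1 : Primrec (fun w : List α => (words w (depth w)).map (fun u => defect (w ++ u))) :=
    list_map (primrec_words.comp Primrec.id primrec_depth)
      (primrec_defect.comp (list_append.comp fst snd)).to₂
  have hh : Primrec₂ (fun (_ : List α) (x : ℕ × ℕ) => min x.1 x.2) :=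
    nat_min.comp (fst.comp snd) (snd.comp snd)
  exact list_foldr h1 list_length hh

theorem primrec_val : Primrec (fun w : List α => min (rightVal w) (rightVal w.reverse)) :=
  nat_min.comp primrec_rightVal (primrec_rightVal.comp list_reverse)

end Prim

end Pool.Agent.Lib.MP_a1720d_lc
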