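import Pool.Agent.Lib.MP_a1720d_lc.Defs

set_option autoImplicit false

namespace Pool.Agent.Lib.MP_a1720d_lc

variable {α : Type}

theorem pal_finite (w : List α) : (Pal w).Finite := by
  refine (List.finite_toSet w.sublists).subset ?_
  intro u hu
  simpa using hu.1.sublist

/-- Appending `b` to `w` creates a new palindromic factor. -/
def New (w : List α) (b : α) : Prop :=
  ∃ p, p <:+ w ++ [b] ∧ p.reverse = p ∧ ¬ p <:+: w

theorem infix_snoc {u w : List α} {b : α} (h : u <:+: w ++ [b]) : u <:+ w ++ [b] ∨ u <:+: w := by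
  rcases List.infix_concat_iff.mp h with h | h
  · exact Or.inl h
  · exact Or.inr h

theorem short_pal_suffix {p q w : List α} {b : α} (hp : p <:+ w ++ [b]) (hq : q <:+ w ++ [b])
    (pp : p.reverse = p) (pq : q.reverse = q) (hlt : q.length < p.length) : q <:+: w := by
  have h1 : q <:+ p := List.suffix_of_suffix_length_le hq hp hlt.le
  have h2 : q <+: p := by
    rw [← pp, ← pq]; exact List.reverse_prefix.mpr h1
  obtain ⟨t, rfl⟩ := h2
  obtain ⟨s, hs⟩ := hp
  have ht : t ≠ [] := by
    rintro rfl; simp at hlt
  obtain ⟨t', c, rfl⟩ : ∃ t' c, t = t' ++ [c] := ⟨t.dropLast, t.getLast ht, (List.dropLast_append_getLast ht).symm⟩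
  have : s ++ q ++ t' = w := by
    have h3 : (s ++ q ++ t') ++ [c] = w ++ [b] := by rw [← hs]; simp
    exact List.append_inj_left' h3 rfl
  exact ⟨s, t', this⟩

theorem pal_subset_snoc (w : List α) (b : α) : Pal w ⊆ Pal (w ++ [b]) := fun _ hu =>
  ⟨hu.1.trans (List.prefix_append _ _).isInfix, hu.2⟩

theorem ncard_snoc_of_not_new {w : List α} {b : α} (h : ¬ New w b) :
    (Pal (w ++ [b])).ncard = (Pal w).ncard := by
  congr 1
  refine Set.Subset.antisymm ?_ (pal_subset_snoc w b)
  intro u hu
  rcases infix_snoc hu.1 with h1 | h1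
  · by_contra h2
    exact h ⟨u, h1, hu.2, fun h3 => h2 ⟨h3, hu.2⟩⟩
  · exact ⟨h1, hu.2⟩

theorem ncard_snoc_of_new {w : List α} {b : α} (h : New w b) :
    (Pal (w ++ [b])).ncard = (Pal w).ncard + 1 := by
  obtain ⟨p, hp, pp, hn⟩ := h
  have : Pal (w ++ [b]) = insert p (Pal w) := by
    refine Set.Subset.antisymm ?_ ?_
    · intro u hu
      rcases infix_snoc hu.1 with h1 | h1
      · rcases lt_trichotomy u.length p.length with h2 | h2 | h2
        · exact Or.inr ⟨short_pal_suffix hp h1 pp hu.2 h2, hu.2⟩
        · exact Or.inl ((List.suffix_of_suffix_length_le h1 hp h2.le).eq_of_length h2)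
        · exact absurd (short_pal_suffix h1 hp hu.2 pp h2) hn
      · exact Or.inr ⟨h1, hu.2⟩
    · rintro u (rfl | hu)
      · exact ⟨hp.isInfix, pp⟩
      · exact pal_subset_snoc w b hu
  rw [this, Set.ncard_insert_of_notMem (fun h => hn h.1) (pal_finite w)]

theorem pal_nil : Pal ([] : List α) = {[]} := by
  ext u; simp only [Pal, List.infix_nil, Set.mem_ofPred_eq, Set.mem_singleton_iff]
  constructor
  · exact fun h => h.1
  · rintro rfl; simp

theorem ncard_pal_le (w : List α) : (Pal w).ncard ≤ w.length + 1 := by
  induction w using List.reverseRecOn with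
  | nil => simp [pal_nil]
  | append_singleton w b ih =>
    by_cases h : New w b
    · rw [ncard_snoc_of_new h]; simp; omega
    · rw [ncard_snoc_of_not_new h]; simp; omega

theorem defect_nil : defect ([] : List α) = 0 := by simp [defect, pal_nil]

theorem defect_snoc_of_new {w : List α} {b : α} (h : New w b) :
    defect (w ++ [b]) = defect w := by
  simp only [defect, ncard_snoc_of_new h, List.length_append, List.length_singleton]
  omega

theorem defect_snoc_of_not_new {w : List α} {b : α} (h : ¬ New w b) :
    defect (w ++ [b]) = defect w + 1 := by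
  have := ncard_pal_le w
  simp only [defect, ncard_snoc_of_not_new h, List.length_append, List.length_singleton]
  omega

theorem defect_le_append (w v : List α) : defect w ≤ defect (w ++ v) := by
  induction v using List.reverseRecOn with
  | nil => simp
  | append_singleton v b ih =>
    rw [← List.append_assoc]
    by_cases h : New (w ++ v) b
    · rw [defect_snoc_of_new h]; exact ih
    · rw [defect_snoc_of_not_new h]; omega

theorem pal_reverse (w : List α) : Pal w.reverse = Pal w := by
  ext u
  simp only [Pal, Set.mem_ofPred_eq]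
  constructor
  · rintro ⟨h, pu⟩
    refine ⟨?_, pu⟩
    rw [← pu] at h
    exact List.reverse_infix.mp h
  · rintro ⟨h, pu⟩
    refine ⟨?_, pu⟩
    rw [← pu]
    exact List.reverse_infix.mpr h

theorem defect_reverse (w : List α) : defect w.reverse = defect w := by
  simp [defect, pal_reverse]

theorem defect_mono {u v : List α} (h : u <:+: v) : defect u ≤ defect v := by
  obtain ⟨s, t, rfl⟩ := h
  refine le_trans ?_ (defect_le_append _ t)
  rw [← defect_reverse u, ← defect_reverse (s ++ u), List.reverse_append]
  exact defect_le_append _ _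

theorem defect_append_replicate (w : List α) (a : α) (n : ℕ) :
    defect (w ++ List.replicate n a) ≤ w.length := by
  have h1 : (fun j => List.replicate j a) '' (Set.Iic n) ⊆ Pal (w ++ List.replicate n a) := by
    rintro _ ⟨j, hj, rfl⟩
    refine ⟨?_, by simp⟩
    have hj' : j ≤ n := hj
    refine ⟨w ++ List.replicate (n - j) a, [], ?_⟩
    simp only [List.append_nil, List.append_assoc, List.replicate_append_replicate]
    congr 2; omega
  have h2 := Set.ncard_le_ncard h1 (pal_finite _)
  rw [Set.ncard_image_of_injective _ (List.replicate_left_injective a)] at h2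
  have h3 : (Set.Iic n).ncard = n + 1 := by
    rw [← Finset.coe_Iic, Set.ncard_coe_finset]; simp
  simp only [defect, List.length_append, List.length_replicate]
  omega

/-- The self-reproducing situation: `W` ends with the palindrome `y b q`, `q` is a palindrome and
`b q b` is not a factor of `W`. -/
def Good (W : List α) : Prop :=
  ∃ (x y q : List α) (b : α), W = x ++ (y ++ [b] ++ q) ∧
    (y ++ [b] ++ q).reverse = y ++ [b] ++ q ∧ q.reverse = q ∧ ¬ ([b] ++ q ++ [b] <:+: W)

/-- Cancelling equally long tails in an occurrence. -/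
theorem infix_of_tail {r t W t' : List α} (h : r ++ t <:+: W ++ t') (hl : t'.length ≤ t.length) :
    r <:+: W := by
  obtain ⟨s, e, hse⟩ := h
  have h1 : s ++ r <+: W ++ t' := ⟨t ++ e, by rw [← hse]; simp⟩
  have h2 : (s ++ r).length ≤ W.length := by
    have := congrArg List.length hse
    simp only [List.length_append] at this ⊢
    omega
  have h3 : s ++ r <+: W := List.prefix_of_prefix_length_le h1 (List.prefix_append _ _) h2
  obtain ⟨e', he'⟩ := h3
  exact ⟨s, e', he'⟩

theorem reflect_defect (x y q : List α) (b : α) (pq : q.reverse = q)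
    (hn : ¬ ([b] ++ q ++ [b] <:+: x ++ (y ++ [b] ++ q))) (t : List α) (ht : t <+: y.reverse) :
    defect (x ++ (y ++ [b] ++ q) ++ ([b] ++ t)) = defect (x ++ (y ++ [b] ++ q)) := by
  induction t using List.reverseRecOn with
  | nil =>
    rw [List.append_nil]
    refine defect_snoc_of_new ⟨[b] ++ q ++ [b], ⟨x ++ y, by simp⟩, by simp [pq], hn⟩
  | append_singleton t c ih =>
    have ht' : t <+: y.reverse := (List.prefix_append _ _).trans ht
    rw [← ih ht', ← List.append_assoc [b], ← List.append_assoc _ ([b] ++ t)]
    obtain ⟨e, he⟩ := ht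
    have hy : y = e.reverse ++ ([c] ++ t.reverse) := by
      have := congrArg List.reverse he
      simpa using this.symm
    refine defect_snoc_of_new ⟨[c] ++ t.reverse ++ ([b] ++ q ++ [b]) ++ (t ++ [c]),
      ⟨x ++ e.reverse, by rw [hy]; simp⟩, by simp [pq], ?_⟩
    intro h
    have h1 := infix_of_tail h (by simp)
    exact hn ((List.suffix_append _ _).isInfix.trans h1)

theorem good_extend {W : List α} (h : Good W) :
    ∃ v : List α, v ≠ [] ∧ (∀ a ∈ v, a ∈ W) ∧ defect (W ++ v) = defect W ∧ Good (W ++ v) := by
  obtain ⟨x, y, q, b, rfl, pP, pq, hn⟩ := h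
  have hP : q ++ ([b] ++ y.reverse) = y ++ [b] ++ q := by
    rw [← pP]; simp [pq]
  refine ⟨[b] ++ y.reverse, by simp, ?_, reflect_defect x y q b pq hn _ (List.prefix_refl _),
    x, y, y ++ [b] ++ q, b, ?_, ?_, pP, ?_⟩
  · intro a ha
    simp only [List.mem_append, List.mem_singleton, List.mem_reverse] at ha ⊢
    tauto
  · conv_rhs => rw [← hP]
    simp
  · rw [List.reverse_append, pP]
    conv_rhs => rw [← hP]
    simp
  · intro h
    have h0 : [b] ++ (y ++ [b] ++ q) ++ [b] = ([b] ++ q ++ [b]) ++ (y.reverse ++ [b]) := by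
      rw [← hP]; simp
    rw [h0] at h
    exact hn (infix_of_tail h (by simp))

/-- A long extension with few defects passes through a good word. -/
theorem reach_good (u : List α) : ∀ (W P : List α) (k s : ℕ), P <:+ W → P.reverse = P →
    2 * W.length ≤ s + P.length → (∀ a ∈ u, a ∈ W) → defect (W ++ u) ≤ defect W + k →
    2 ^ k * (s + 2) ≤ W.length + u.length → ∃ u', u' <+: u ∧ Good (W ++ u') := by
  induction u with
  | nil =>
    intro W P k s hP _ hs _ _ hl
    have h1 := hP.length_le
    have h2 : 1 * (s + 2) ≤ 2 ^ k * (s + 2) := Nat.mul_le_mul_right _ Nat.one_le_two_pow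
    simp at hl
    omega
  | cons b u ih =>
    intro W P k s hP pP hs hu hd hl
    have hb : b ∈ W := hu b (by simp)
    have hu' : ∀ a ∈ u, a ∈ W ++ [b] := fun a ha =>
      List.mem_append_left _ (hu a (by simp [ha]))
    have hWu : W ++ b :: u = (W ++ [b]) ++ u := by simp
    have hPl := hP.length_le
    by_cases hnew : New W b
    · obtain ⟨p, hp, pp, hn⟩ := id hnew
      -- `p = b q b`
      have hp0 : p ≠ [] := by rintro rfl; exact hn (List.nil_infix)
      obtain ⟨p', c, rfl⟩ : ∃ p' c, p = p' ++ [c] :=
        ⟨p.dropLast, p.getLast hp0, (List.dropLast_append_getLast hp0).symm⟩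
      obtain ⟨s0, hs0⟩ := hp
      have hs1 : (s0 ++ p') ++ [c] = W ++ [b] := by rw [← hs0]; simp
      have hW : s0 ++ p' = W := List.append_inj_left' hs1 rfl
      have hc : c = b := by simpa using List.append_inj_right' hs1 rfl
      subst hc
      cases p' with
      | nil =>
        obtain ⟨s1, t1, h1⟩ := List.append_of_mem hb
        exact absurd ⟨s1, t1, by rw [h1]; simp⟩ hn
      | cons d q =>
        have h1 : c :: (q.reverse ++ [d]) = d :: (q ++ [c]) := by simpa using pp
        have hd' : c = d := (List.cons.inj h1).1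
        subst hd'
        have pq : q.reverse = q := List.append_inj_left' (List.cons.inj h1).2 rfl
        have hq : c :: q <:+ W := ⟨s0, hW⟩
        by_cases hlt : q.length < P.length
        · have h2 : c :: q <:+ P := List.suffix_of_suffix_length_le hq hP (by simpa using hlt)
          obtain ⟨y, hy⟩ := h2
          obtain ⟨x, hx⟩ := hP
          have hy' : y ++ [c] ++ q = P := by rw [← hy]; simp
          refine ⟨[], List.nil_prefix, x, y, q, c, by rw [hy', hx]; simp, by rw [hy', pP], pq, ?_⟩
          simpa using hn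
        · obtain ⟨u', h1, h2⟩ := ih (W ++ [c]) (c :: q ++ [c]) k s ⟨s0, hs0⟩ pp
            (by simp; omega) hu'
            (by rw [← hWu, defect_snoc_of_new hnew]; exact hd)
            (by simp at hl ⊢; omega)
          exact ⟨c :: u', by simpa using h1, by simpa using h2⟩
    · have h1 := defect_snoc_of_not_new hnew
      have h2 := defect_le_append (W ++ [b]) u
      rw [← hWu] at h2
      obtain ⟨k', rfl⟩ : ∃ k', k = k' + 1 := ⟨k - 1, by omega⟩
      obtain ⟨u', h3, h4⟩ := ih (W ++ [b]) [] k' (2 * s + 2) List.nil_suffix rfl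
        (by simp; omega) hu' (by rw [← hWu]; omega)
        (by
          have : 2 ^ k' * (2 * s + 2 + 2) = 2 ^ (k' + 1) * (s + 2) := by ring
          simp at hl ⊢; omega)
      exact ⟨b :: u', by simpa using h3, by simpa using h4⟩

end Pool.Agent.Lib.MP_a1720d_lc
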